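import Pool.Agent.Helper32.DX.Fin
import Pool.Agent.Helper32.DX.Sharp

/-!
# B4: the exact Bombieri constant `c_4^*` (MP_7d58db_an)

Definitions. `ClassS`, `SelfMap`, `coeff`, `koebe`, `kst`, `KChain`, `exists_chain` are those of
`Helper64.C3`; `AA`, `ac`, `B1`, `B2`, `ac_step`, `ac_rel`, `ac_small`, `ac_dil` are those of
`Helper32.DX`.

`θ : ℝ → ℝ` is a measurable function (the driving function is `- exp (i θ(u))`, `u ∈ (0,1]`).
-/

set_option autoImplicit false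

open Metric Set Filter Topology MeasureTheory
open scoped ComplexConjugate Interval

namespace Pool.Agent.Helper32.B4

/-- `e = exp (i θ)` -/
noncomputable def ee (θ : ℝ → ℝ) (u : ℝ) : ℂ := Complex.exp ((θ u : ℂ) * Complex.I)
/-- `ν = 1 - cos θ` -/
noncomputable def nu (θ : ℝ → ℝ) (u : ℝ) : ℝ := 1 - Real.cos (θ u)
/-- `s = sin θ` -/
noncomputable def sn (θ : ℝ → ℝ) (u : ℝ) : ℝ := Real.sin (θ u)
/-- `c = cos θ` -/
noncomputable def cs (θ : ℝ → ℝ) (u : ℝ) : ℝ := Real.cos (θ u)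

/-- coefficients of the chain at the level `a` -/
noncomputable def c0 (θ : ℝ → ℝ) (a : ℝ) : ℂ := -(2 * ∫ v in a..1, ee θ v)
noncomputable def c1 (θ : ℝ → ℝ) (a : ℝ) : ℂ := 2 * ∫ v in a..1, (v : ℂ) * ee θ v ^ 2
noncomputable def c2 (θ : ℝ → ℝ) (a : ℝ) : ℂ :=
  -(2 * ∫ v in a..1, ((v : ℂ) * ee θ v ^ 2 * c0 θ v + (v : ℂ) ^ 2 * ee θ v ^ 3))

/-- second and fourth coefficient of the function with driving function `- exp (i θ)` -/
noncomputable def A2 (θ : ℝ → ℝ) : ℂ := -c0 θ 0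
noncomputable def A4 (θ : ℝ → ℝ) : ℂ := -c0 θ 0 ^ 3 + 2 * c0 θ 0 * c1 θ 0 - c2 θ 0

/-- tail integrals -/
noncomputable def tl (g : ℝ → ℝ) (u : ℝ) : ℝ := ∫ v in u..1, g v

/-! Real functionals of `θ` -/
noncomputable def fD (θ : ℝ → ℝ) : ℝ := ∫ u in (0:ℝ)..1, nu θ u
noncomputable def fY (θ : ℝ → ℝ) : ℝ := ∫ u in (0:ℝ)..1, sn θ u
noncomputable def fZ (θ : ℝ → ℝ) : ℝ := ∫ u in (0:ℝ)..1, u * sn θ u ^ 2
noncomputable def fT (θ : ℝ → ℝ) : ℝ := ∫ u in (0:ℝ)..1, u * sn θ u * cs θ u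
noncomputable def fA (θ : ℝ → ℝ) : ℝ := ∫ u in (0:ℝ)..1, u ^ 2 * sn θ u ^ 2 * nu θ u
noncomputable def fN (θ : ℝ → ℝ) : ℝ := ∫ u in (0:ℝ)..1, nu θ u ^ 2
noncomputable def fS (θ : ℝ → ℝ) : ℝ := ∫ u in (0:ℝ)..1, sn θ u ^ 2
noncomputable def fM (θ : ℝ → ℝ) : ℝ := ∫ u in (0:ℝ)..1, u * nu θ u
noncomputable def fU (θ : ℝ → ℝ) : ℝ := ∫ u in (0:ℝ)..1, u * nu θ u ^ 2
noncomputable def fW (θ : ℝ → ℝ) : ℝ := ∫ u in (0:ℝ)..1, u * sn θ u ^ 2 * tl (nu θ) u
noncomputable def fV (θ : ℝ → ℝ) : ℝ := ∫ u in (0:ℝ)..1, u * sn θ u * cs θ u * tl (sn θ) u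
noncomputable def fJ (θ : ℝ → ℝ) : ℝ := ∫ u in (0:ℝ)..1, u * sn θ u * nu θ u
noncomputable def fI (θ : ℝ → ℝ) : ℝ := ∫ u in (0:ℝ)..1, u * sn θ u * nu θ u * tl (sn θ) u
noncomputable def fL (θ : ℝ → ℝ) : ℝ := ∫ u in (0:ℝ)..1, u * sn θ u
noncomputable def fK (θ : ℝ → ℝ) : ℝ := ∫ u in (0:ℝ)..1, u * sn θ u * tl (sn θ) u
noncomputable def fW2 (θ : ℝ → ℝ) : ℝ := ∫ u in (0:ℝ)..1, tl (nu θ) u ^ 2
noncomputable def fB (θ : ℝ → ℝ) : ℝ := ∫ u in (0:ℝ)..1, nu θ u * tl (sn θ) u ^ 2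
noncomputable def fq (θ : ℝ → ℝ) : ℝ := ∫ u in (0:ℝ)..1, (24 * u - 16 * u ^ 2) * sn θ u ^ 2

/-- `F = 4 - Re A4` (module FD) -/
noncomputable def FF (θ : ℝ → ℝ) : ℝ :=
  20 * fD θ - 24 * fD θ ^ 2 + 8 * fD θ ^ 3 + 16 * fZ θ * fD θ + 24 * (1 - fD θ) * fY θ ^ 2
    - 16 * fY θ * fT θ - fq θ - 8 * fA θ + 8 * fW θ - 8 * fV θ

/-- the quadratic form -/
noncomputable def Qf (s : ℝ → ℝ) : ℝ :=
  (∫ u in (0:ℝ)..1, (10 - 24 * u + 16 * u ^ 2) * s u ^ 2) +
  8 * ∫ u in (0:ℝ)..1, s u * ∫ v in u..1, (6 - 3 * u - 2 * v) * s v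

/-- step function: value `t i` on `(a (i+1), a i]` for `i < m`, `0` elsewhere -/
noncomputable def stepf (a t : ℕ → ℝ) (m : ℕ) (u : ℝ) : ℝ :=
  ∑ i ∈ Finset.range m, (Ioc (a (i + 1)) (a i)).indicator (fun _ => t i) u

/-! ## Basic lemmas -/

/-- a bounded measurable function on a bounded interval is integrable -/
theorem ii_of_bdd {E : Type*} [NormedAddCommGroup E] {g : ℝ → E} {a b C : ℝ}
    (hg : AEStronglyMeasurable g volume) (hC : ∀ u ∈ Ι a b, ‖g u‖ ≤ C) :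
    IntervalIntegrable g volume a b := by
  rw [intervalIntegrable_iff]
  refine Measure.integrableOn_of_bounded (M := C) ?_ hg ?_
  · simp [uIoc]
  · rw [ae_restrict_iff' measurableSet_uIoc]
    exact Filter.Eventually.of_forall hC

theorem norm_ee (θ : ℝ → ℝ) (u : ℝ) : ‖ee θ u‖ = 1 := by
  rw [ee, Complex.norm_exp_ofReal_mul_I]

theorem meas_ee {θ : ℝ → ℝ} (hθ : Measurable θ) : Measurable (ee θ) := by
  unfold ee
  fun_prop

theorem meas_nu {θ : ℝ → ℝ} (hθ : Measurable θ) : Measurable (nu θ) := by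
  unfold nu
  fun_prop

theorem meas_sn {θ : ℝ → ℝ} (hθ : Measurable θ) : Measurable (sn θ) := by
  unfold sn
  fun_prop

theorem meas_cs {θ : ℝ → ℝ} (hθ : Measurable θ) : Measurable (cs θ) := by
  unfold cs
  fun_prop

theorem nu_nonneg (θ : ℝ → ℝ) (u : ℝ) : 0 ≤ nu θ u := by
  unfold nu
  linarith [Real.cos_le_one (θ u)]

theorem nu_le (θ : ℝ → ℝ) (u : ℝ) : nu θ u ≤ 2 := by
  unfold nu
  linarith [Real.neg_one_le_cos (θ u)]

theorem abs_sn_le (θ : ℝ → ℝ) (u : ℝ) : |sn θ u| ≤ 1 := Real.abs_sin_le_one _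

theorem abs_cs_le (θ : ℝ → ℝ) (u : ℝ) : |cs θ u| ≤ 1 := Real.abs_cos_le_one _

theorem cs_eq (θ : ℝ → ℝ) (u : ℝ) : cs θ u = 1 - nu θ u := by
  unfold cs nu
  ring

theorem sn_sq (θ : ℝ → ℝ) (u : ℝ) : sn θ u ^ 2 = nu θ u * (2 - nu θ u) := by
  unfold sn nu
  have := Real.sin_sq_add_cos_sq (θ u)
  linear_combination this

theorem ee_eq (θ : ℝ → ℝ) (u : ℝ) : ee θ u = (1 - nu θ u : ℝ) + (sn θ u : ℝ) * Complex.I := by
  unfold ee nu sn
  rw [Complex.exp_mul_I]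
  push_cast
  ring

theorem continuous_tl {g : ℝ → ℝ} (hg : ∀ a b : ℝ, IntervalIntegrable g volume a b) :
    Continuous (tl g) := by
  have h1 := intervalIntegral.continuous_primitive hg 1
  have h2 : tl g = fun u => -∫ v in (1:ℝ)..u, g v := by
    funext u
    rw [tl, intervalIntegral.integral_symm]
  rw [h2]
  exact h1.neg

theorem stepf_meas (a t : ℕ → ℝ) (m : ℕ) : Measurable (stepf a t m) := by
  unfold stepf
  refine Finset.measurable_sum _ (fun i _ => ?_)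
  exact measurable_const.indicator measurableSet_Ioc

theorem stepf_of_mem {a t : ℕ → ℝ} {m : ℕ} (ha : ∀ i < m, a (i + 1) ≤ a i) {i : ℕ} (hi : i < m)
    {u : ℝ} (hu : u ∈ Ioc (a (i + 1)) (a i)) : stepf a t m u = t i := by
  have hmono : ∀ j k : ℕ, j ≤ k → k ≤ m → a k ≤ a j := by
    intro j k hjk
    induction k, hjk using Nat.le_induction with
    | base => intro _; exact le_rfl
    | succ k hk ih => intro h; exact (ha k (by omega)).trans (ih (by omega))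
  unfold stepf
  rw [Finset.sum_eq_single i]
  · rw [indicator_of_mem hu]
  · intro j hj hji
    apply indicator_of_notMem
    rintro ⟨h1, h2⟩
    rw [Finset.mem_range] at hj
    rcases lt_or_gt_of_ne hji with h | h
    · have := hmono (j + 1) i (by omega) (by omega)
      linarith [hu.2]
    · have := hmono (i + 1) j (by omega) (by omega)
      linarith [hu.1]
  · intro h
    exact absurd (Finset.mem_range.2 hi) h

theorem stepf_of_gt {a t : ℕ → ℝ} {m : ℕ} (ha : ∀ i < m, a (i + 1) ≤ a i) {u : ℝ} (hu : a 0 < u) :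
    stepf a t m u = 0 := by
  have hmono : ∀ k : ℕ, k ≤ m → a k ≤ a 0 := by
    intro k
    induction k with
    | zero => intro _; exact le_rfl
    | succ k ih => intro h; exact (ha k (by omega)).trans (ih (by omega))
  unfold stepf
  apply Finset.sum_eq_zero
  intro j hj
  rw [Finset.mem_range] at hj
  apply indicator_of_notMem
  rintro ⟨_, h2⟩
  have := hmono j (by omega)
  linarith

theorem stepf_of_le {a t : ℕ → ℝ} {m : ℕ} (ha : ∀ i < m, a (i + 1) ≤ a i) {u : ℝ} (hu : u ≤ a m) :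
    stepf a t m u = 0 := by
  have hmono : ∀ j k : ℕ, j ≤ k → k ≤ m → a k ≤ a j := by
    intro j k hjk
    induction k, hjk using Nat.le_induction with
    | base => intro _; exact le_rfl
    | succ k hk ih => intro h; exact (ha k (by omega)).trans (ih (by omega))
  unfold stepf
  apply Finset.sum_eq_zero
  intro j hj
  rw [Finset.mem_range] at hj
  apply indicator_of_notMem
  rintro ⟨h1, _⟩
  have := hmono (j + 1) m (by omega) le_rfl
  linarith

end Pool.Agent.Helper32.B4
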