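import Pool.Agent.Helper32.B4.St

set_option autoImplicit false

open Metric Set Filter Topology MeasureTheory
open scoped ComplexConjugate Interval

namespace Pool.Agent.Helper32.B4

open Pool.Agent.Helper64.C3
open Pool.Agent.Helper32.DX

theorem Qf_smul (a : ℝ) (s : ℝ → ℝ) : Qf (fun u => a * s u) = a ^ 2 * Qf s := by
  unfold Qf
  have h1 : ∀ u : ℝ, (10 - 24 * u + 16 * u ^ 2) * (a * s u) ^ 2
      = a ^ 2 * ((10 - 24 * u + 16 * u ^ 2) * s u ^ 2) := by intro u; ring
  have h2 : ∀ u : ℝ, (a * s u) * (∫ v in u..1, (6 - 3 * u - 2 * v) * (a * s v))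
      = a ^ 2 * (s u * ∫ v in u..1, (6 - 3 * u - 2 * v) * s v) := by
    intro u
    have h3 : ∀ v : ℝ, (6 - 3 * u - 2 * v) * (a * s v) = a * ((6 - 3 * u - 2 * v) * s v) := by
      intro v; ring
    simp only [h3]
    rw [intervalIntegral.integral_const_mul]
    ring
  simp only [h1, h2]
  rw [intervalIntegral.integral_const_mul, intervalIntegral.integral_const_mul]
  ring

theorem int_smul (a : ℝ) (s : ℝ → ℝ) :
    (∫ u in (0:ℝ)..1, (a * s u) ^ 2) = a ^ 2 * ∫ u in (0:ℝ)..1, s u ^ 2 := by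
  rw [← intervalIntegral.integral_const_mul]
  congr 1
  funext u
  ring

theorem Qf_zero_of {s : ℝ → ℝ} (hs : ∀ u ∈ Icc (0 : ℝ) 1, s u = 0) : Qf s = 0 := by
  unfold Qf
  have h1 : (∫ u in (0:ℝ)..1, (10 - 24 * u + 16 * u ^ 2) * s u ^ 2) = 0 := by
    rw [intervalIntegral.integral_congr (g := fun _ => 0)]
    · simp
    · intro u hu
      rw [uIcc_of_le zero_le_one] at hu
      simp [hs u hu]
  have h2 : (∫ u in (0:ℝ)..1, s u * ∫ v in u..1, (6 - 3 * u - 2 * v) * s v) = 0 := by
    rw [intervalIntegral.integral_congr (g := fun _ => 0)]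
    · simp
    · intro u hu
      rw [uIcc_of_le zero_le_one] at hu
      simp [hs u hu]
  rw [h1, h2]
  ring

theorem zero_of_int {s : ℝ → ℝ} (hc : Continuous s) (h : (∫ u in (0:ℝ)..1, s u ^ 2) = 0) :
    ∀ u ∈ Icc (0 : ℝ) 1, s u = 0 := by
  intro u hu
  by_contra hne
  have h1 : 0 < ∫ u in (0:ℝ)..1, s u ^ 2 := by
    apply intervalIntegral.integral_pos zero_lt_one (by fun_prop)
    · intro x _
      positivity
    · exact ⟨u, hu, by positivity⟩
  linarith

theorem stepf_smul (ε : ℝ) (a t : ℕ → ℝ) (m : ℕ) :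
    (fun u => ε * stepf a t m u) = stepf a (fun i => ε * t i) m := by
  funext u
  unfold stepf
  rw [Finset.mul_sum]
  apply Finset.sum_congr rfl
  intro i _
  by_cases hu : u ∈ Ioc (a (i + 1)) (a i)
  · rw [indicator_of_mem hu, indicator_of_mem hu]
  · rw [indicator_of_notMem hu, indicator_of_notMem hu, mul_zero]

theorem stepf_bdd (a t : ℕ → ℝ) (m : ℕ) : ∃ C : ℝ, ∀ u, |stepf a t m u| ≤ C := by
  refine ⟨∑ i ∈ Finset.range m, |t i|, fun u => ?_⟩
  unfold stepf
  refine (Finset.abs_sum_le_sum_abs _ _).trans (Finset.sum_le_sum fun i _ => ?_)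
  by_cases hu : u ∈ Ioc (a (i + 1)) (a i)
  · rw [indicator_of_mem hu]
  · rw [indicator_of_notMem hu, abs_zero]
    exact abs_nonneg _

theorem hMain : StRL → StAP → StFD → StIA → StUP → StLO → StEX → StSM → StCT → StTE → StMain := by
  intro hRL hAP hFD hIA hUP hLO hEX hSM hCT hTE c hc
  -- the form is bounded by c
  have hcont : ∀ s : ℝ → ℝ, Continuous s → Qf s ≤ c * ∫ u in (0:ℝ)..1, s u ^ 2 := by
    intro s hs
    have hnn : 0 ≤ ∫ u in (0:ℝ)..1, s u ^ 2 :=
      intervalIntegral.integral_nonneg zero_le_one (fun u _ => sq_nonneg _)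
    rcases hnn.eq_or_lt with h0 | h0
    · rw [Qf_zero_of (zero_of_int hs h0.symm), ← h0, mul_zero]
    · set I := ∫ u in (0:ℝ)..1, s u ^ 2 with hI
      have hr : 0 < Real.sqrt I := Real.sqrt_pos.2 h0
      have h1 : Qf (fun u => (Real.sqrt I)⁻¹ * s u) ≤ c := by
        apply hc.1
        refine ⟨fun u => (Real.sqrt I)⁻¹ * s u, by fun_prop, ?_, rfl⟩
        rw [int_smul, ← hI, inv_pow, Real.sq_sqrt h0.le]
        exact inv_mul_cancel₀ h0.ne'
      rw [Qf_smul, inv_pow, Real.sq_sqrt h0.le, inv_mul_le_iff₀ h0] at h1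
      linarith
  have hbm := hEX c hcont
  have h1997 : 19.97 < c := by
    obtain ⟨s, hs, hpos, hlt⟩ := hTE
    have h1 := hcont s hs
    by_contra hcon
    push Not at hcon
    have h2 : c * (∫ u in (0:ℝ)..1, s u ^ 2) ≤ 19.97 * ∫ u in (0:ℝ)..1, s u ^ 2 :=
      mul_le_mul_of_nonneg_right hcon hpos.le
    linarith
  refine ⟨h1997, ?_, ?_⟩
  · -- upper bound
    rintro x ⟨f, hf, -, rfl⟩
    have key : ∀ ε : ℝ, 0 < ε → |((4 : ℂ) - coeff 4 f).re| ≤ c * ((2 - coeff 2 f).re + ε) + ε ∧
        -ε ≤ (2 - coeff 2 f).re := by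
      intro ε hε
      obtain ⟨θ, hθ, h2, h4⟩ := hAP f hf ε hε
      obtain ⟨hF, hD⟩ := hFD θ hθ
      obtain ⟨hSN, -, -, -, hD0, -, hN0, -⟩ := hIA θ hθ
      have e2 : |(coeff 2 f - A2 θ).re| ≤ ε := (Complex.abs_re_le_norm _).trans h2
      have e4 : |(coeff 4 f - A4 θ).re| ≤ ε := (Complex.abs_re_le_norm _).trans h4
      rw [Complex.sub_re, abs_le] at e2 e4
      have hre2 : (2 - coeff 2 f).re = 2 - (coeff 2 f).re := by simp
      have hre4 : ((4 : ℂ) - coeff 4 f).re = 4 - (coeff 4 f).re := by simp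
      have hq := hbm (sn θ) (meas_sn hθ) ⟨1, abs_sn_le θ⟩
      have hup := hUP θ hθ
      have hlo := hLO θ hθ
      have hS : (∫ u in (0:ℝ)..1, sn θ u ^ 2) = fS θ := rfl
      rw [hS] at hq
      have a1 : 19.9 * fN θ ≤ c * fN θ := mul_le_mul_of_nonneg_right (by linarith) hN0
      have a2 : FF θ ≤ c * (2 * fD θ) := by
        rw [hSN]
        linarith
      have a3 : 32 * fD θ ≤ c * (2 * fD θ) := by nlinarith
      have a4 : 2 * fD θ ≤ (2 - coeff 2 f).re + ε := by
        rw [hre2, ← hD]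
        linarith [e2.1]
      have a5 : c * (2 * fD θ) ≤ c * ((2 - coeff 2 f).re + ε) :=
        mul_le_mul_of_nonneg_left a4 (by linarith)
      refine ⟨?_, by linarith⟩
      rw [hre4, abs_le]
      constructor
      · linarith [e4.2]
      · linarith [e4.1]
    have hD0 : 0 ≤ (2 - coeff 2 f).re := by
      by_contra hneg
      push Not at hneg
      have := (key (-(2 - coeff 2 f).re / 2) (by linarith)).2
      linarith
    have hle : |((4 : ℂ) - coeff 4 f).re| ≤ c * (2 - coeff 2 f).re := by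
      by_contra hneg
      push Not at hneg
      set δ := |((4 : ℂ) - coeff 4 f).re| - c * (2 - coeff 2 f).re with hδ
      have hδ0 : 0 < δ := by linarith
      have hc1 : 0 < c + 1 := by linarith
      have := (key (δ / (2 * (c + 1))) (by positivity)).1
      have h2 : c * (δ / (2 * (c + 1))) + δ / (2 * (c + 1)) = δ / 2 := by
        field_simp
      linarith
    show |(((4 : ℕ) : ℂ) - coeff 4 f).re| / (2 - coeff 2 f).re ≤ c
    have h44 : ((4 : ℕ) : ℂ) = 4 := by norm_num
    rw [h44]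
    rcases hD0.eq_or_lt with h0 | h0
    · rw [← h0, div_zero]
      linarith
    · rw [div_le_iff₀ h0]
      exact hle
  · -- lower bound
    intro c' hc'
    apply hc.2
    rintro x ⟨s, hs, hs1, rfl⟩
    have main : ∀ η : ℝ, 0 < η → η ≤ 1 / 2 → 0 ≤ c' ∧ Qf s - η ≤ c' * (1 + η) := by
      intro η hη hη2
      obtain ⟨a, t, m, ha0, ha, hQ, hI⟩ := hCT s hs η hη
      rw [hs1] at hI
      set σ := stepf a t m with hσ
      set I := ∫ u in (0:ℝ)..1, σ u ^ 2 with hIdef
      obtain ⟨K, hK, hKe⟩ := hSM σ (stepf_meas a t m) (stepf_bdd a t m)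
      rw [abs_le] at hQ hI
      have hIpos : 1 / 2 ≤ I := by linarith [hI.2]
      have hI2 : I ≤ 1 + η := by linarith [hI.1]
      have step : ∀ ε : ℝ, 0 < ε → ε ≤ 1 → K * ε ^ 2 ≤ 1 / 4 →
          0 ≤ c' ∧ Qf σ - K * ε ^ 2 ≤ c' * (I + K * ε ^ 2) := by
        intro ε hε hε1 hεK
        obtain ⟨f, hf, hf2, hf4⟩ := hRL a (fun i => ε * t i) m ha0 ha
        obtain ⟨b1, b2⟩ := hKe ε hε hε1
        rw [hσ, stepf_smul] at b1 b2
        rw [← hσ] at b1 b2
        set θ := stepf a (fun i => ε * t i) m with hθ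
        obtain ⟨hF, hD⟩ := hFD θ (stepf_meas _ _ _)
        rw [abs_le] at b1 b2
        have hε2 : 0 < ε ^ 2 := by positivity
        have e4 : K * ε ^ 4 = (K * ε ^ 2) * ε ^ 2 := by ring
        have hDpos : 0 < 2 * fD θ := by
          have h1 : (K * ε ^ 2) * ε ^ 2 ≤ 1 / 4 * ε ^ 2 := mul_le_mul_of_nonneg_right hεK hε2.le
          have h2 : 1 / 2 * ε ^ 2 ≤ ε ^ 2 * I := by nlinarith
          rw [e4] at b2
          linarith [b2.1]
        have hre2 : (2 - coeff 2 f).re = 2 * fD θ := by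
          rw [hf2, ← hD]
          simp
        have hre4 : (((4 : ℕ) : ℂ) - coeff 4 f).re = FF θ := by
          rw [hf4, ← hF]
          simp
        have hne : ¬ EqOn f koebe (ball 0 1) := by
          intro heq
          have h1 : coeff 2 f = coeff 2 koebe := Pool.Agent.Helper39.QM.coeff_congr heq 2
          rw [coeff_koebe] at h1
          rw [h1] at hre2
          simp at hre2
          linarith
        have hr : |FF θ| / (2 * fD θ) ≤ c' := by
          apply hc'
          exact ⟨f, hf, hne, by rw [hre2, hre4]⟩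
        have hc0 : 0 ≤ c' := le_trans (by positivity) hr
        rw [div_le_iff₀ hDpos] at hr
        refine ⟨hc0, ?_⟩
        have h1 : FF θ ≤ c' * (2 * fD θ) := (le_abs_self _).trans hr
        have h2 : c' * (2 * fD θ) ≤ c' * (ε ^ 2 * I + K * ε ^ 4) :=
          mul_le_mul_of_nonneg_left (by linarith [b2.2]) hc0
        have h3 : ε ^ 2 * (Qf σ - K * ε ^ 2) ≤ ε ^ 2 * (c' * (I + K * ε ^ 2)) := by
          have h4 : ε ^ 2 * (Qf σ - K * ε ^ 2) = ε ^ 2 * Qf σ - K * ε ^ 4 := by ring
          have h5 : ε ^ 2 * (c' * (I + K * ε ^ 2)) = c' * (ε ^ 2 * I + K * ε ^ 4) := by ring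
          rw [h4, h5]
          linarith [b1.1]
        exact le_of_mul_le_mul_left h3 hε2
      have hex : ∃ ε : ℝ, 0 < ε ∧ ε ≤ 1 ∧ K * ε ^ 2 ≤ 1 / 4 := by
        refine ⟨1 / (2 * (K + 1)), by positivity, ?_, ?_⟩
        · rw [div_le_one (by positivity)]
          linarith
        · rw [div_pow, one_pow, mul_one_div, div_le_div_iff₀ (by positivity) (by norm_num)]
          nlinarith
      obtain ⟨ε₀, h01, h02, h03⟩ := hex
      have hc0 := (step ε₀ h01 h02 h03).1
      have hlim : Qf σ ≤ c' * I := by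
        by_contra hneg
        push Not at hneg
        set δ := Qf σ - c' * I with hδ
        have hδ0 : 0 < δ := by linarith
        obtain ⟨ε, he0, he1, he2, he3⟩ : ∃ ε : ℝ, 0 < ε ∧ ε ≤ 1 ∧ K * ε ^ 2 ≤ 1 / 4 ∧
            (1 + c') * (K * ε ^ 2) ≤ δ / 2 := by
          set M := (1 + c') * K with hM
          have hM0 : 0 ≤ M := by positivity
          refine ⟨min ε₀ (δ / (2 * (M + δ) + 2 * M + 1)), ?_, ?_, ?_, ?_⟩
          · positivity
          · exact (min_le_left _ _).trans h02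
          · have h1 : (min ε₀ (δ / (2 * (M + δ) + 2 * M + 1))) ^ 2 ≤ ε₀ ^ 2 :=
              pow_le_pow_left₀ (by positivity) (min_le_left _ _) 2
            nlinarith
          · set e := min ε₀ (δ / (2 * (M + δ) + 2 * M + 1)) with he
            have hepos : 0 < e := by positivity
            have h1 : e ≤ δ / (2 * (M + δ) + 2 * M + 1) := min_le_right _ _
            have h2 : e ≤ 1 := (min_le_left _ _).trans h02
            have h3 : e ^ 2 ≤ e := by nlinarith
            rw [le_div_iff₀ (by positivity)] at h1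
            have h4 : M * e ^ 2 ≤ M * e := mul_le_mul_of_nonneg_left h3 hM0
            have h5 : (1 + c') * (K * e ^ 2) = M * e ^ 2 := by rw [hM]; ring
            rw [h5]
            nlinarith [mul_nonneg hM0 hepos.le, mul_nonneg hδ0.le hepos.le]
        have h1 := (step ε he0 he1 he2).2
        nlinarith
      refine ⟨hc0, ?_⟩
      have h1 : c' * I ≤ c' * (1 + η) := mul_le_mul_of_nonneg_left hI2 hc0
      linarith [hQ.2]
    by_contra hneg
    push Not at hneg
    have hc0 := (main (1 / 2) (by norm_num) le_rfl).1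
    set δ := Qf s - c' with hδ
    have hδ0 : 0 < δ := by linarith
    set η := min (1 / 2) (δ / (2 * (c' + 1))) with hη
    have hη0 : 0 < η := by positivity
    have h1 := (main η hη0 (min_le_left _ _)).2
    have h2 : η ≤ δ / (2 * (c' + 1)) := min_le_right _ _
    rw [le_div_iff₀ (by positivity)] at h2
    nlinarith

end Pool.Agent.Helper32.B4
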