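import Pool.Agent.Helper32.B4.St

set_option autoImplicit false

open Metric Set Filter Topology MeasureTheory
open scoped ComplexConjugate Interval

namespace Pool.Agent.Helper32.B4

/-! ## Module NU (150 lines): numerical upper bound for the form (Schur test)

Let `h(u) = 10000 - 29589u + 83712u² - 198938u³ + 360130u⁴ - 452894u⁵ + 365324u⁶ - 168252u⁷
+ 33496u⁸`; it is positive on `[0,1]` (all Bernstein coefficients of degree 8 are positive: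
`10000, 50411/8, 156589/28, 241965/56, 57101/14, 196871/56, 92353/28, 24693/8, 2989`).
For `0 ≤ u ≤ v ≤ 1` the kernel `k(u,v) = 8 (6 - 3u - 2v) ≥ 8` is positive and
`s(u) s(v) ≤ (s(u)² h(v)/h(u) + s(v)² h(u)/h(v))/2`. So
`8 ∫_0^1 s(u) ∫_u^1 (6-3u-2v) s(v) dv du ≤ ∫_0^1 s(u)²/h(u) · 4 ∫_u^1 (6-3u-2v) h(v) dv du
 + ∫_0^1 s(v)²/h(v) · 4 ∫_0^v (6-3u-2v) h(u) du dv` (Fubini in the second part), i.e.
`Qf s ≤ ∫_0^1 [p(u) + (Kh)(u)/h(u)] s(u)² du`, `p = 10 - 24u + 16u²`,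
`(Kh)(u) = 4 ∫_u^1 (6-3u-2v) h(v) dv + 4 ∫_0^u (6-3v-2u) h(v) dv`, an explicit polynomial.
Finally `r(u) = (19.98 - p(u)) h(u) - (Kh)(u) ≥ 0` on `[0,1]`:
`r = 184/21 + 2392769/1050 u - 1367256/25 u² + 12920919/25 u³ - 12738553/5 u⁴ + 183650837/25 u⁵
 - 977521486/75 u⁶ + 7548480346/525 u⁷ - 1675631386/175 u⁸ + 10515850/3 u⁹ - 24184112/45 u¹⁰`
(minimum about `6` on `[0,1]`); on each of the intervals `[0,1/8], [1/8,1/4], [1/4,1/2], [1/2,3/4],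
[3/4,1]` all Bernstein coefficients (degree 10) of `r` are nonnegative. -/
def StNU : Prop := ∀ s : ℝ → ℝ, Continuous s → Qf s ≤ 19.98 * ∫ u in (0:ℝ)..1, s u ^ 2

end Pool.Agent.Helper32.B4
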