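import Pool.Agent.Helper32.B4.M_ASM
import Pool.Agent.Helper32.B4.St2
import Pool.Agent.Helper67.B4.M_EV
import Pool.Agent.Helper80.B4.M_SL
import Pool.Agent.Helper19.B4.M_ST
import Pool.Agent.Helper98.B4.M_ML
import Pool.Agent.Helper29.B4.M_KO
import Pool.Agent.Helper72.B4.M_RL
import Pool.Agent.Helper65.B4.M_AE
import Pool.Agent.Helper8.B4.M_AP
import Pool.Agent.Helper28.B4.M_RE
import Pool.Agent.Helper2.B4.M_FD
import Pool.Agent.Helper2.B4.M_IB
import Pool.Agent.Helper39.B4.M_IA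
import Pool.Agent.Helper81.B4.M_IC
import Pool.Agent.Helper79.B4.M_QI
import Pool.Agent.Helper4.B4.M_UP
import Pool.Agent.Helper96.B4.M_LO
import Pool.Agent.Helper3.B4.M_QC
import Pool.Agent.Helper95.B4.M_EX
import Pool.Agent.Helper70.B4.M_SM
import Pool.Agent.Helper41.B4.M_CT
import Pool.Agent.Helper43.B4.M_TE
import Pool.Agent.Helper75.B4.M_NU

set_option autoImplicit false

open Metric Set Filter Topology MeasureTheory
open scoped ComplexConjugate Interval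

namespace Pool.Agent.Helper32.B4

open Pool.Agent.Helper64.C3
open Pool.Agent.Helper32.DX

theorem pEV : StEV := Pool.Agent.Helper67.B4.hEV
theorem pIA : StIA := Pool.Agent.Helper39.B4.hIA
theorem pIB : StIB := Pool.Agent.Helper2.B4.hIB
theorem pIC : StIC := Pool.Agent.Helper81.B4.hIC
theorem pQI : StQI := Pool.Agent.Helper79.B4.hQI
theorem pML : StML := Pool.Agent.Helper98.B4.hML pEV Pool.Agent.Helper80.B4.hSL Pool.Agent.Helper19.B4.hST
theorem pRL : StRL := Pool.Agent.Helper72.B4.hRL pEV pML Pool.Agent.Helper29.B4.hKO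
theorem pAP : StAP := Pool.Agent.Helper8.B4.hAP (Pool.Agent.Helper65.B4.hAE pEV)
theorem pFD : StFD := Pool.Agent.Helper2.B4.hFD Pool.Agent.Helper28.B4.hRE
theorem pUP : StUP := Pool.Agent.Helper4.B4.hUP pIA pIB pIC pQI
theorem pLO : StLO := Pool.Agent.Helper96.B4.hLO pIA pIB pIC
theorem pQC : StQC := Pool.Agent.Helper3.B4.hQC pQI
theorem pEX : StEX := Pool.Agent.Helper95.B4.hEX pQC
theorem pSM : StSM := Pool.Agent.Helper70.B4.hSM pIA pQI pQC
theorem pCT : StCT := Pool.Agent.Helper41.B4.hCT pQC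

theorem pMain : StMain :=
  hMain pRL pAP pFD pIA pUP pLO pEX pSM pCT Pool.Agent.Helper43.B4.hTE

theorem main : ∃ c : ℝ, 19.97 < c ∧ c ≤ 19.98 ∧
    IsLUB {x : ℝ | ∃ s : ℝ → ℝ, Continuous s ∧ (∫ u in (0:ℝ)..1, s u ^ 2) = 1 ∧ x = Qf s} c ∧
    IsLUB (ratios 4) c := by
  set A := {x : ℝ | ∃ s : ℝ → ℝ, Continuous s ∧ (∫ u in (0:ℝ)..1, s u ^ 2) = 1 ∧ x = Qf s} with hA
  have hne : A.Nonempty := ⟨Qf (fun _ => 1), fun _ => 1, continuous_const, by simp, rfl⟩
  have hub : ∀ x ∈ A, x ≤ 19.98 := by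
    rintro x ⟨s, hs, h1, rfl⟩
    have := Pool.Agent.Helper75.B4.hNU s hs
    rw [h1, mul_one] at this
    exact this
  have hlub : IsLUB A (sSup A) := isLUB_csSup hne ⟨_, hub⟩
  obtain ⟨h1, h2⟩ := pMain (sSup A) hlub
  exact ⟨sSup A, h1, csSup_le hne hub, hlub, h2⟩

end Pool.Agent.Helper32.B4
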