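import Pool.Agent.Helper32.B4.Defs

/-!
# B4: statements (with complete proofs) for the exact constant `c_4^*` (MP_7d58db_an)

THEOREM. `c_4^* = Λ`, the top of the quadratic form `Qf` on the unit sphere of `L²(0,1)`
(`Λ = 19.977...`): for all `f ∈ S`, `|Re (4 - a_4)| ≤ Λ Re (2 - a_2)`, and `Λ` is sharp.

Notation in the proofs: `e = exp(iθ)`, `ν = 1 - cos θ`, `s = sin θ`, `c = cos θ = 1 - ν`,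
`s² = ν (2 - ν)`, `D_u = tl (nu θ) u = ∫_u^1 ν`, `Y_u = tl (sn θ) u = ∫_u^1 s`, `D = D_0`, `Y = Y_0`.
All integrands are bounded measurable on `[0,1]` (lemmas `ii_of_bdd`, `meas_*`, `continuous_tl` of
`Defs`). Every module takes the statements it uses as hypotheses.
-/

set_option autoImplicit false

open Metric Set Filter Topology MeasureTheory
open scoped ComplexConjugate Interval

namespace Pool.Agent.Helper32.B4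

open Pool.Agent.Helper64.C3
open Pool.Agent.Helper32.DX

/-! ## Module EV (80 lines)

Evolution of `c0, c1, c2` on an interval `(a', a]` where `θ = t` (so `ee θ = e` is constant there).
`c0`: split the integral, `∫_{a'}^a e = e (a - a')`. `c1`: `2 ∫_{a'}^a v e² = e² (a² - a'²)`.
`c2`: by the first formula (with `a'` replaced by `v ∈ (a', a)`) `c0 θ v = c0 θ a - 2 e (a - v)`, so
on `(a', a]` the integrand is `v e² c0(v) + v² e³ = e² c0(a) v - 2 e³ a v + 3 e³ v²`, its integral is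
`e² c0(a) (a² - a'²)/2 - e³ a (a² - a'²) + e³ (a³ - a'³)`; multiply by `-2` and compare with
`e² (a'² (c0(a) - 2 e (a - a')) - a² c0(a))` (ring). -/
def StEV : Prop := ∀ (θ : ℝ → ℝ), Measurable θ → ∀ a' a t : ℝ, 0 ≤ a' → a' ≤ a → a ≤ 1 →
  (∀ u ∈ Ioc a' a, θ u = t) →
  c0 θ a' = c0 θ a - 2 * Complex.exp ((t : ℂ) * Complex.I) * ((a : ℂ) - a') ∧
  c1 θ a' = c1 θ a + Complex.exp ((t : ℂ) * Complex.I) ^ 2 * ((a : ℂ) ^ 2 - (a' : ℂ) ^ 2) ∧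
  c2 θ a' = c2 θ a + Complex.exp ((t : ℂ) * Complex.I) ^ 2 *
    ((a' : ℂ) ^ 2 * c0 θ a' - (a : ℂ) ^ 2 * c0 θ a)

/-! ## Module SL (100 lines)

The Koebe slit map. For `e = 1`: `R(w) = rt q (koebe w) = √(1 + 4 q k(w))`; for `w` in the disc
`1 + 4 q k(w)` is in the slit plane (`one_add_eq`, `Nn_ne` etc. of `Helper64/C3/Growth`, or: with
`y = (1-w)/(1+w)`, `Re y > 0`, one has `1 + 4 q k(w) = (q + (1-q) y²)/y²`; a value `-τ ≤ 0` would give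
`y² (1 - q + τ) = - q`, impossible since `y²` is not a negative real), so `R` is holomorphic with
`Re R > 0`, `R² = 1 + 4 q k(w)`. `φ = (R - 1)/(R + 1)` is a self map (`|R-1| < |R+1|`), `φ 0 = 0`,
`φ/(1-φ)² = (R² - 1)/4 = q k(w)`; injective since `k` is injective on the disc; derivative at `0`
from `φ = q k(w) (1-φ)²`. For general `e` take `ψ(w) = conj e · φ(e w)`. -/
def StSL : Prop := ∀ (q : ℝ) (e : ℂ), 0 < q → q ≤ 1 → ‖e‖ = 1 →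
  ∃ ψ : ℂ → ℂ, SelfMap ψ ∧ InjOn ψ (ball 0 1) ∧ deriv ψ 0 = (q : ℂ) ∧
    ∀ w ∈ ball (0 : ℂ) 1, ψ w * (1 - e * w) ^ 2 = q * w * (1 - e * ψ w) ^ 2

/-! ## Module ST (80 lines)

One slit step in coefficients. `A = AA H`, `A' = AA H'`, `A H = u z`, `A' H' = q u z` (`AA_mul`).
Multiplying the relation by `A² A'²` and using these: for `z ≠ 0`
`A' (A - e u z)² = A (A' - e q u z)²`; dividing by `A A'` (both nonzero, `dslope_ne`) and using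
`z² u / A = z H`: `A' = A - 2 e (u - q u) z + e² (u z H - q u z H')` on the disc (also at `z = 0`).
Compare coefficients of `z, z², z³` (as in `DX.Rel`: `coeff_zmul` in `DX/Sharp` for `z · G`,
`coeff_lin`), `coeff 1 H = u`, `coeff 2 H = - u ac 1 H` (`ac_rel`). -/
def StST : Prop := ∀ (q u : ℝ) (e : ℂ) (H H' : ℂ → ℂ), 0 < q → q ≤ 1 → 0 < u → ‖e‖ = 1 →
  SelfMap H → InjOn H (ball 0 1) → deriv H 0 = (u : ℂ) →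
  SelfMap H' → InjOn H' (ball 0 1) → deriv H' 0 = ((q * u : ℝ) : ℂ) →
  (∀ z ∈ ball (0 : ℂ) 1, H' z * (1 - e * H z) ^ 2 = q * H z * (1 - e * H' z) ^ 2) →
  ac 1 H' = ac 1 H - 2 * e * ((u : ℂ) - q * u) ∧
  ac 2 H' = ac 2 H + e ^ 2 * ((u : ℂ) ^ 2 - (q * u) ^ 2) ∧
  ac 3 H' = ac 3 H + e ^ 2 * ((q * u : ℂ) ^ 2 * ac 1 H' - (u : ℂ) ^ 2 * ac 1 H)

/-! ## Module ML (100 lines; uses EV, SL, ST)

Induction on `m`. `m = 0`: `H = id` (`AA id = 1` near `0`, so `ac k = 0` for `k ≥ 1`), `c_k θ 1 = 0`.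
Step: `H'` = `ψ ∘ H` with the slit map `ψ` for `q = a (m+1)/a m`, `e = exp (i t_m)`; `deriv`
by the chain rule. `stepf a t (m+1)` and `stepf a t m` agree on `(a m, 1]` (`stepf_of_mem` etc.), so
their `c_k` at `a m` agree; on `(a (m+1), a m]` the value is `t m`: use EV and ST. -/
def StML : Prop := ∀ (a t : ℕ → ℝ) (m : ℕ), a 0 = 1 →
  (∀ i < m, 0 < a (i + 1) ∧ a (i + 1) ≤ a i) →
  ∃ H : ℂ → ℂ, SelfMap H ∧ InjOn H (ball 0 1) ∧ deriv H 0 = (a m : ℂ) ∧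
    ac 1 H = c0 (stepf a t m) (a m) ∧ ac 2 H = c1 (stepf a t m) (a m) ∧
    ac 3 H = c2 (stepf a t m) (a m)

/-! ## Module KO (90 lines)

`f = k ∘ H / u`. It is in `S` (`k` injective and holomorphic on the disc, derivative `u/u = 1`).
With `A = AA H`: `A (1 - H)² = A - 2 u z + u z H =: P`, and `f P = z` on the disc, `P_0 = 1`,
`P_1 = ac 1 H - 2u`, `P_2 = ac 2 H + u²`, `P_3 = ac 3 H + u coeff 2 H = ac 3 H - u² ac 1 H`.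
`f P = z` in coefficients (`coeff_mul`): `a_2 = -P_1`, `a_3 = P_1² - P_2`,
`a_4 = -P_1³ + 2 P_1 P_2 - P_3`; hence `B1 f = P_2`, `B2 f = P_3`. -/
def StKO : Prop := ∀ (u : ℝ) (H : ℂ → ℂ), 0 < u → SelfMap H → InjOn H (ball 0 1) →
  deriv H 0 = (u : ℂ) →
  ClassS (fun z => koebe (H z) / u) ∧
  coeff 2 (fun z => koebe (H z) / u) = -(ac 1 H - 2 * u) ∧
  B1 (fun z => koebe (H z) / u) = ac 2 H + (u : ℂ) ^ 2 ∧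
  B2 (fun z => koebe (H z) / u) = ac 3 H - (u : ℂ) ^ 2 * ac 1 H

/-! ## Module RL (50 lines; uses EV, ML, KO)

Take `H` from ML and `f` from KO with `u = a m`. `θ = stepf a t m` is `0` on `(0, a m]`, so EV with
`a' = 0`, `a = a m`, `t = 0` gives `c0 θ 0 = ac 1 H - 2u`, `c1 θ 0 = ac 2 H + u²`,
`c2 θ 0 = ac 3 H - u² ac 1 H`; `coeff 4 f = a_2³ - 2 a_2 B1 - B2` by definition of `B1, B2`.
(If `m = 0` the function is the Koebe function.) -/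
def StRL : Prop := ∀ (a t : ℕ → ℝ) (m : ℕ), a 0 = 1 →
  (∀ i < m, 0 < a (i + 1) ∧ a (i + 1) ≤ a i) →
  ∃ f : ℂ → ℂ, ClassS f ∧ coeff 2 f = A2 (stepf a t m) ∧ coeff 4 f = A4 (stepf a t m)

/-! ## Module AE (150 lines; uses EV)

`t i = arg (- χ i)`, so `exp (i t_i) = - χ i =: e`. `u_i = q^i p₀`, `θ` = the step function, it is
`0` on `(p₀, 1]`. Put `d1_i = ac 1 (H i) - c0 θ u_i`, `d2_i = ac 2 (H i) - c1 θ u_i`,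
`d3_i = ac 3 (H i) - c2 θ u_i`. Start: `‖ac k (H 0)‖ ≤ 600 η` (`ac_small`) and by EV on `(p₀, 1]` with
`t = 0`: `|c0 θ p₀|, |c1 θ p₀|, |c2 θ p₀| ≤ 2 η`; so `|dk_0| ≤ 602 η`. Step (EV with `t = t_i` and
`ac_step`, `χ = -e`, `u = u_i`):
`d1' = d1 + χ u (1-q)²/q`, so `|d1'| ≤ |d1| + 2 (1-q)²`;
`d2' = d2 + χ² u² (1-q²)²/q²`, so `|d2'| ≤ |d2| + 16 (1-q)²`;
`d3' = d3 - χ² u² (1-q²) (ac1/q² - c0) + χ³ u³ (1-q) ((1+q)/q³ - 2q²)`, where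
`ac1/q² - c0 = d1 + ac1 (1/q² - 1)`, `|ac1| ≤ |c0| + |d1| ≤ 3`, `|(1+q)/q³ - 2q²| ≤ 72 (1-q)`, so
`|d3'| ≤ |d3| + 2 (1-q) u |d1| + 120 (1-q)²`. Finally `Σ (1-q) u_i = p₀ - u_m ≤ 1`. Hence
`|d1| ≤ 602 η + 2 m (1-q)²`, `|d2| ≤ 602 η + 16 m (1-q)²`, `|d3| ≤ 1806 η + 124 m (1-q)²`. -/
def StAE : Prop := ∀ (q p₀ η : ℝ) (m : ℕ) (H : ℕ → ℂ → ℂ) (χ : ℕ → ℂ),
  1 / 2 ≤ q → q < 1 → 0 ≤ η → η ≤ 1 / 20000 → 1 - η ≤ p₀ → p₀ ≤ 1 → KChain q p₀ m H χ →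
  2000 * (η + m * (1 - q) ^ 2) ≤ 1 →
  ∃ t : ℕ → ℝ,
    ‖ac 1 (H m) - c0 (stepf (fun i => q ^ i * p₀) t m) (q ^ m * p₀)‖ ≤ 2000 * (η + m * (1 - q) ^ 2) ∧
    ‖ac 2 (H m) - c1 (stepf (fun i => q ^ i * p₀) t m) (q ^ m * p₀)‖ ≤ 2000 * (η + m * (1 - q) ^ 2) ∧
    ‖ac 3 (H m) - c2 (stepf (fun i => q ^ i * p₀) t m) (q ^ m * p₀)‖ ≤ 2000 * (η + m * (1 - q) ^ 2)

/-! ## Module AP (130 lines; uses AE)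

Fix `R < 1` close to `1` and then `N` large, `h(w) = f(R w)/N`, `α = R/N` (`ac_dil`: `h` is an
injective self map, `deriv h 0 = α`, `ac 1 h = - R a_2`, `ac 2 h = R² B1 f`, `ac 3 h = R³ B2 f`).
`exists_chain` with `r = 1 - τ`, `τ → 0`: `q = 2√r/(1+r)`, `r ≤ p₀`, `q^m p₀ = α`, `H m = h` on the
disc; as in the proof of `DX.chain_principle`: `1/2 ≤ q`, `1 - q ≤ τ`, `m (1-q)² ≤ τ ℓ`,
`ℓ = - log α`. AE with `η = τ` gives `θ` (a step function, measurable by `stepf_meas`) with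
`|ac_k h - c_{k-1} θ α| ≤ 2000 τ (1 + ℓ)`. Moreover `|c0 θ α - c0 θ 0| ≤ 2α`,
`|c1 θ α - c1 θ 0| ≤ 2α`, `|c2 θ α - c2 θ 0| ≤ 6α` (integrands bounded by `1, 1, 3`). So
`|-R a_2 - c0 θ 0|`, `|R² B1 - c1 θ 0|`, `|R³ B2 - c2 θ 0|` are all `≤ κ` with `κ` arbitrarily small
(first `R`, then `N`, then `τ`). `a_4 = a_2³ - 2 a_2 B1 - B2`, hence
`R³ a_4 = -x³ + 2 x y - w` for `x = -R a_2`, `y = R² B1`, `w = R³ B2`, and `A4 θ` is the same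
polynomial of `c0, c1, c2`; `|c0 θ 0| ≤ 2`, `|c1 θ 0| ≤ 1`, so `|R³ a_4 - A4 θ| ≤ 50 κ` for `κ ≤ 1`,
`|R a_2 - A2 θ| ≤ κ`, and `(1 - R) |a_2|`, `(1 - R³)|a_4|` are small for `R` near `1`. -/
def StAP : Prop := ∀ f : ℂ → ℂ, ClassS f → ∀ ε : ℝ, 0 < ε → ∃ θ : ℝ → ℝ, Measurable θ ∧
  ‖coeff 2 f - A2 θ‖ ≤ ε ∧ ‖coeff 4 f - A4 θ‖ ≤ ε

/-! ## Module RE (130 lines)

`ee_eq`: `e = (1-ν) + i s`. `∫_v^1 e = (1 - v - D_v) + i Y_v`. First three claims immediate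
(`e² = (1 - 2s²) + 2 i s c`). For `c2`: `Re (e² c0(v)) = -2 [(1-2s²)(1-v-D_v) - 2 s c Y_v]`,
`Re e³ = cos 3θ = 1 - ν (3-2ν)²`, so
`Re c2 = ∫ {4v(1-v) - 2v² - 4v D_v - 8 v s² (1-v) + 8 v s² D_v - 8 v s c Y_v + 2 v² ν (3-2ν)²}`;
`∫ (4v(1-v) - 2v²) = 0`, `∫ 4 v D_v dv = 2 ∫ v² ν` (integration by parts / Fubini:
`∫_0^1 v ∫_v^1 ν = ∫_0^1 ν(w) w²/2 dw`), and
`2 v² ν (3-2ν)² - 2 v² ν = 8 v² ν (1-ν)(2-ν) = 8 v² s² - 8 v² s² ν`. -/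
def StRE : Prop := ∀ θ : ℝ → ℝ, Measurable θ →
  (c0 θ 0).re = -(2 * (1 - fD θ)) ∧ (c0 θ 0).im = -(2 * fY θ) ∧
  (c1 θ 0).re = 1 - 4 * fZ θ ∧ (c1 θ 0).im = 4 * fT θ ∧
  (c2 θ 0).re = (∫ u in (0:ℝ)..1, (16 * u ^ 2 - 8 * u) * sn θ u ^ 2)
    - 8 * fA θ + 8 * fW θ - 8 * fV θ

/-! ## Module FD (40 lines; uses RE)

`x = 1 - D`: `Re (-c0³) = 8(x³ - 3 x Y²)`, `Re (2 c0 c1) = -4 x (1-4Z) + 16 Y T`, so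
`4 - Re A4 = 4 - 8x³ + 24 x Y² + 4x - 16 x Z - 16 Y T + Re c2`, and
`-16 Z + ∫ (16u²-8u) s² = - fq`. -/
def StFD : Prop := ∀ θ : ℝ → ℝ, Measurable θ →
  4 - (A4 θ).re = FF θ ∧ 2 - (A2 θ).re = 2 * fD θ

/-! ## Module IA (80 lines)

Pointwise identities `2ν = s² + ν²`, `u s² = 2uν - uν²`, `c = 1 - ν`, and signs; `ν(2-ν) ≤ 1`, so
`u² s² ν ≤ u² ν ≤ ν`; `24u - 16u² ≤ 9`. -/
def StIA : Prop := ∀ θ : ℝ → ℝ, Measurable θ →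
  2 * fD θ = fS θ + fN θ ∧ fZ θ = 2 * fM θ - fU θ ∧ fT θ = fL θ - fJ θ ∧ fV θ = fK θ - fI θ ∧
  0 ≤ fD θ ∧ fD θ ≤ 2 ∧ 0 ≤ fN θ ∧ 0 ≤ fS θ ∧ 0 ≤ fA θ ∧ fA θ ≤ fD θ ∧ 0 ≤ fU θ ∧ 0 ≤ fM θ ∧
  0 ≤ fZ θ ∧ 0 ≤ fW θ ∧ fq θ ≤ 9 * fS θ

/-! ## Module IB (120 lines)

Cauchy-Schwarz in `L²(0,1)` (e.g. from `∫ (x g - y h)² ≥ 0` for all real `x, y`).
`D² ≤ ∫ν²`; `(∫uν)² ≤ ∫u · ∫uν² = U/2`; `J = ∫ (u s √ν) √ν`, `J² ≤ ∫u²s²ν · ∫ν = A D`;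
`Y² ≤ S`; `T = ∫ u (s c)`, `T² ≤ (1/3) ∫ s² c² ≤ S/3`; last:
`37M - 21D = ∫ (37u - 21) ν ≤ ∫ (37u-21)₊ ν ≤ (∫_{21/37}^1 (37u-21)²)^{1/2} √N`,
`∫ = 16³/111 < 6.08²`. -/
def StIB : Prop := ∀ θ : ℝ → ℝ, Measurable θ →
  fD θ ^ 2 ≤ fN θ ∧ 2 * fM θ ^ 2 ≤ fU θ ∧ fJ θ ^ 2 ≤ fA θ * fD θ ∧ fY θ ^ 2 ≤ fS θ ∧
  3 * fT θ ^ 2 ≤ fS θ ∧ 37 * fM θ - 21 * fD θ ≤ 6.08 * Real.sqrt (fN θ)

/-! ## Module IC (150 lines)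

`(D_u)' = -ν`, a.e. sense: use `∫_0^1 g(u) ∫_u^1 h(v) dv du = ∫_0^1 h(v) ∫_0^v g(u) du dv` (Fubini).
`∫_0^1 D_u² du = 2 ∫ u ν D_u` (integrate `D_u² = 2 ∫_u^1 ν D`), `∫ ν D_u = D²/2`, `∫_0^1 D_u du = M`.
(1) `W = ∫ u s² D_u ≤ 2 ∫ u ν D_u = W2` (`s² ≤ 2ν`). (2) `W2 ≤ D ∫ D_u = D M` (`0 ≤ D_u ≤ D`).
(3) `I = ∫ (u s √ν)(√ν Y_u)`, so `I² ≤ A B`. (4) `Y_u² ≤ (1-u) ∫_u^1 s² ≤ 2 (1-u) D_u`, so
`B ≤ 2 ∫ (1-u) ν D_u = D² - W2`. (5) `|V| ≤ ∫ u |s| |Y_u| ≤ ∫ u √(1-u) |s| √S ≤ √(1/12) S`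
(`∫ u² (1-u) = 1/12`). -/
def StIC : Prop := ∀ θ : ℝ → ℝ, Measurable θ →
  fW θ ≤ fW2 θ ∧ fW2 θ ≤ fD θ * fM θ ∧ fI θ ^ 2 ≤ fA θ * fB θ ∧ fB θ ≤ fD θ ^ 2 - fW2 θ ∧
  0 ≤ fB θ ∧ 12 * fV θ ^ 2 ≤ fS θ ^ 2

/-! ## Module QI (100 lines)

`∫_u^1 (6-3u-2v) s(v) dv = (6-3u) tl s u - 2 tl (v s) u`. `∫ s · tl s = (∫s)²/2`,
`∫ s(u) tl(v s)(u) du + ∫ u s(u) tl s (u) du = (∫s)(∫us)` (Fubini / product rule). -/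
def StQI : Prop := ∀ s : ℝ → ℝ, Measurable s → (∃ C : ℝ, ∀ u, |s u| ≤ C) →
  Qf s = 10 * (∫ u in (0:ℝ)..1, s u ^ 2) - (∫ u in (0:ℝ)..1, (24 * u - 16 * u ^ 2) * s u ^ 2)
    + 24 * (∫ u in (0:ℝ)..1, s u) ^ 2 - 16 * (∫ u in (0:ℝ)..1, s u) * (∫ u in (0:ℝ)..1, u * s u)
    - 8 * ∫ u in (0:ℝ)..1, u * s u * tl s u

/-! ## Module UP (90 lines; uses IA, IB, IC, QI)

With IA and QI (for `s = sn θ`): `FF - Qf (sn θ) = 10N - 24D² + 8D³ + 16ZD - 24DY² + 16YJ + 8I - 8A + 8W`.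
(i) `16YJ ≤ 24DY² + (8/3)A` (from `J² ≤ AD`). (ii) `8I ≤ (16/3)A + 3B` (from `I² ≤ AB`).
(iii) `3B ≤ 3D² - 3W2`, `8W ≤ 8W2`, `W2 ≤ DM`. (iv) `16ZD = 32MD - 16UD`. So the right side is
`≤ 10N - 21D² + 8D³ + 37DM - 16UD`. Claim: `G = -21D² + 8D³ + 37DM - 16UD ≤ 9.9N`.
If `D ≤ 0.45`: `D (37M - 21D) ≤ 6.08 D √N ≤ 6.08 N` and `8D³ ≤ 3.6 D² ≤ 3.6 N`, `UD ≥ 0`.
If `D ≥ 0.45`: `U ≥ 2M²`, `N ≥ D²`, so `G - 9.9N ≤ D (-30.9D + 8D² + 37M - 32M²)`,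
`37M - 32M² ≤ 37²/128 < 10.7`, `-30.9D + 8D² + 10.7 ≤ 0` for `0.45 ≤ D ≤ 2` (convex). -/
def StUP : Prop := ∀ θ : ℝ → ℝ, Measurable θ → FF θ ≤ Qf (sn θ) + 19.9 * fN θ

/-! ## Module LO (60 lines; uses IA, IB, IC)

`S = 2D - N ≤ 2D - D²`. `20D - fq ≥ 10S + 10N - 9S ≥ 10N ≥ 10 D²`, `16 Z D ≥ 0`, `8W ≥ 0`,
`-8A ≥ -8D`, `|16 Y T| ≤ (16/√3) S ≤ 9.25 S`, `|8V| ≤ (8/√12) S ≤ 2.31 S`,
`24(1-D)Y² ≥ 0` if `D ≤ 1` and `≥ -24 (D-1) S ≥ -24 (D-1) D (2-D) ≥ -6D` if `1 ≤ D ≤ 2`.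
So `FF ≥ -14D² + 8D³ - 8D - 11.56 D(2-D) - 6D·[D>1] ≥ -32 D`. -/
def StLO : Prop := ∀ θ : ℝ → ℝ, Measurable θ → -(32 * fD θ) ≤ FF θ

/-! ## Module QC (120 lines; uses QI)

All five terms in QI are bounded bilinear forms: with `‖·‖ = L²(0,1)`-norm, `|∫ p s²-∫ p s'²| ≤
sup|p| ‖s-s'‖ (‖s‖+‖s'‖)` (`|10 - 24u+16u²| ≤ 10`), `|∫s| ≤ ‖s‖`, `|∫us| ≤ ‖s‖`,
`|∫ u g(u) tl h (u)| ≤ ‖g‖ ‖h‖` (`|tl h u| ≤ ‖h‖`). -/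
def StQC : Prop := ∀ s s' : ℝ → ℝ, Measurable s → (∃ C : ℝ, ∀ u, |s u| ≤ C) →
  Measurable s' → (∃ C : ℝ, ∀ u, |s' u| ≤ C) →
  |Qf s - Qf s'| ≤ 100 * Real.sqrt (∫ u in (0:ℝ)..1, (s u - s' u) ^ 2) *
    (Real.sqrt (∫ u in (0:ℝ)..1, s u ^ 2) + Real.sqrt (∫ u in (0:ℝ)..1, s' u ^ 2))

/-! ## Module EX (100 lines; uses QC)

Continuous functions are dense in `L²(0,1)`: for bounded measurable `s` and `δ > 0` there is a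
(bounded) continuous `g` with `∫_0^1 (s-g)² ≤ δ²` (e.g. `MeasureTheory.MemLp.exists_boundedContinuous_eLpNorm_sub_le`
for the measure `volume.restrict (Ioc 0 1)`); then `|Qf s - Qf g|` and `|∫s² - ∫g²|` are small. -/
def StEX : Prop := ∀ c : ℝ, (∀ s : ℝ → ℝ, Continuous s → Qf s ≤ c * ∫ u in (0:ℝ)..1, s u ^ 2) →
  ∀ s : ℝ → ℝ, Measurable s → (∃ C : ℝ, ∀ u, |s u| ≤ C) → Qf s ≤ c * ∫ u in (0:ℝ)..1, s u ^ 2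

/-! ## Module SM (150 lines; uses IA, QI, QC)

`θ = ε σ`, `|σ| ≤ C`. `0 ≤ ν ≤ ε² C²/2`, `|s| ≤ ε C`, `|s - εσ| ≤ ε³ C³/6` (`|sin x - x| ≤ |x|³/6`, or
`/4`), `|ν - ε²σ²/2| ≤ ε⁴ C⁴` (`Real.cos_bound` type estimates). By IA and QI
`FF - Qf (sn θ) = 10N - 24D² + 8D³ + 16ZD - 24DY² + 16YJ + 8I - 8A + 8W`, every term is `O(ε⁴)`;
`Qf (sn θ) - Qf (εσ)` is `O(ε³ · ε)` by QC; `Qf (εσ) = ε² Qf σ`. `2D - ε² ∫σ² = O(ε⁴)`. -/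
def StSM : Prop := ∀ σ : ℝ → ℝ, Measurable σ → (∃ C : ℝ, ∀ u, |σ u| ≤ C) →
  ∃ K : ℝ, 0 ≤ K ∧ ∀ ε : ℝ, 0 < ε → ε ≤ 1 →
    |FF (fun u => ε * σ u) - ε ^ 2 * Qf σ| ≤ K * ε ^ 4 ∧
    |2 * fD (fun u => ε * σ u) - ε ^ 2 * ∫ u in (0:ℝ)..1, σ u ^ 2| ≤ K * ε ^ 4

/-! ## Module CT (120 lines; uses QC)

`a i = 1 - i/(m+1)`, `t i = s (a i)`. On `(a (i+1), a i]`, `|s - t i| ≤ ω(1/(m+1))` (uniform
continuity on `[0,1]`), on `(0, a m]` the step function is `0` and `|s| ≤ C`; so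
`∫_0^1 (s-σ)² ≤ ω² + C²/(m+1) → 0`. (`s` is only bounded on `[0,1]`: replace it by
`s ∘ (projection to [0,1])`, `Qf` only depends on the values on `[0,1]`.) -/
def StCT : Prop := ∀ s : ℝ → ℝ, Continuous s → ∀ η : ℝ, 0 < η → ∃ (a t : ℕ → ℝ) (m : ℕ), a 0 = 1 ∧
  (∀ i < m, 0 < a (i + 1) ∧ a (i + 1) ≤ a i) ∧ |Qf s - Qf (stepf a t m)| ≤ η ∧
  |(∫ u in (0:ℝ)..1, s u ^ 2) - ∫ u in (0:ℝ)..1, stepf a t m u ^ 2| ≤ η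

/-! ## Module TE (60 lines)

`s(u) = 10 - 21u + 24u² - 10u³`: `∫ s² = 997/35`, `Qf s = 19914/35` (the inner integral
`∫_u^1 (6-3u-2v) s(v) dv` is an explicit polynomial of `u`), ratio `19.9739`. -/
def StTE : Prop := ∃ s : ℝ → ℝ, Continuous s ∧ 0 < (∫ u in (0:ℝ)..1, s u ^ 2) ∧
  19.97 * (∫ u in (0:ℝ)..1, s u ^ 2) < Qf s

/-! ## Module ASM (150 lines; uses RL, AP, FD, UP, LO, EX, QC, SM, CT, TE) -/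
def StMain : Prop := ∀ c : ℝ,
  IsLUB {x : ℝ | ∃ s : ℝ → ℝ, Continuous s ∧ (∫ u in (0:ℝ)..1, s u ^ 2) = 1 ∧ x = Qf s} c →
  19.97 < c ∧ IsLUB (ratios 4) c

end Pool.Agent.Helper32.B4
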